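import Mathlib
import Pool.Agent.Y248.FD.Stm
import Pool.Agent.Y363.FC.SL
import Pool.Agent.Y86.FC.An2

set_option autoImplicit false

/-!
Job Y248-FD GA of helper248, part A: the one variable estimate and slicing for general sets.
-/

namespace Pool.Agent.Y884.FD

open MeasureTheory Set Metric Complex Filter
open scoped ENNReal RealInnerProductSpace Topology FourierTransform
open Pool.Agent.H789R2.FR (E sg T)
open Pool.Agent.Y248.FB
open Pool.Agent.Y248.FC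
open Pool.Agent.Y248.FD
open Pool.Agent.Y363.FC
open Pool.Agent.Y86.FC (principle gauss_bound)

/-- integrals of powers against a measure of dimension `β`, with a uniform constant -/
theorem growthE {β : ℝ} (_hβ0 : 0 ≤ β) (hβ1 : β ≤ 1) {k : ℕ} (K₀ : ℝ) (hK₀ : 0 ≤ K₀)
    (ν : Measure (E k))
    (hν : ∀ (t : E k) (r : ℝ), 1 ≤ r → ν (closedBall t r) ≤ ENNReal.ofReal (K₀ * r ^ β))
    (r : ℝ) (hr : 0 < r) (hr1 : r ≤ 1) (t : E k) :
      ∫⁻ s, ENNReal.ofReal ((1 + r * ‖s - t‖) ^ (-(2 : ℝ))) ∂ν ≤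
        ENNReal.ofReal (8 * K₀ * r ^ (-β)) := by
  obtain ⟨τ, hτe⟩ : ∃ τ : ℝ, τ = 2 := ⟨2, rfl⟩
  rw [← hτe]
  have hτ0 : 0 ≤ τ := by rw [hτe]; norm_num
  set q : ℝ := (2 : ℝ) ^ (β - τ) with hq
  have hq0 : 0 < q := by positivity
  have hq1 : q < 1 := Real.rpow_lt_one_of_one_lt_of_neg one_lt_two (by rw [hτe]; linarith)
  have hq2 : q ≤ 1 / 2 := by
    calc q ≤ (2 : ℝ) ^ (-1 : ℝ) := by
          rw [hq]
          exact Real.rpow_le_rpow_of_exponent_le one_le_two (by rw [hτe]; linarith)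
      _ = 1 / 2 := by rw [Real.rpow_neg_one]; norm_num
  have h8 : (2 : ℝ) ^ τ * (1 - q)⁻¹ ≤ 8 := by
    have e1 : (2 : ℝ) ^ τ = 4 := by rw [hτe]; norm_num
    rw [e1, ← div_eq_mul_inv, div_le_iff₀ (by linarith)]
    linarith
  have hpt : ∀ s : E k, ENNReal.ofReal ((1 + r * ‖s - t‖) ^ (-τ)) ≤
      ∑' i : ℕ, (closedBall t ((2 : ℝ) ^ i / r)).indicator
        (fun _ => ENNReal.ofReal ((2 : ℝ) ^ τ * ((2 : ℝ) ^ i) ^ (-τ))) s := by
    intro s
    obtain ⟨i, hi1, hi2⟩ : ∃ i : ℕ, r * ‖s - t‖ ≤ (2 : ℝ) ^ i ∧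
        (1 + r * ‖s - t‖) ^ (-τ) ≤ (2 : ℝ) ^ τ * ((2 : ℝ) ^ i) ^ (-τ) := by
      rcases le_total (r * ‖s - t‖) 1 with h1 | h1
      · refine ⟨0, by simpa using h1, ?_⟩
        rw [pow_zero, Real.one_rpow, mul_one]
        calc (1 + r * ‖s - t‖) ^ (-τ) ≤ 1 :=
              Real.rpow_le_one_of_one_le_of_nonpos (by
                have : 0 ≤ r * ‖s - t‖ := by positivity
                linarith) (by linarith)
          _ ≤ (2 : ℝ) ^ τ := Real.one_le_rpow one_le_two hτ0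
      · obtain ⟨n, hn1, hn2⟩ := exists_nat_pow_near h1 one_lt_two
        refine ⟨n + 1, hn2.le, ?_⟩
        have h2 : (2 : ℝ) ^ τ * ((2 : ℝ) ^ (n + 1)) ^ (-τ) = ((2 : ℝ) ^ n) ^ (-τ) := by
          rw [pow_succ, Real.mul_rpow (by positivity) (by norm_num), mul_comm, mul_assoc,
            ← Real.rpow_add two_pos, neg_add_cancel, Real.rpow_zero, mul_one]
        rw [h2]
        refine Real.rpow_le_rpow_of_nonpos (by positivity) ?_ (by linarith)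
        linarith
    refine le_trans ?_ (ENNReal.le_tsum i)
    have h1 : s ∈ closedBall t ((2 : ℝ) ^ i / r) := by
      rw [mem_closedBall, dist_eq_norm, le_div_iff₀ hr, mul_comm]
      exact hi1
    rw [indicator_of_mem h1]
    exact ENNReal.ofReal_le_ofReal hi2
  refine (lintegral_mono hpt).trans ?_
  rw [lintegral_tsum fun i => (measurable_const.indicator
    isClosed_closedBall.measurableSet).aemeasurable]
  have hterm : ∀ i : ℕ, ∫⁻ s, (closedBall t ((2 : ℝ) ^ i / r)).indicator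
      (fun _ => ENNReal.ofReal ((2 : ℝ) ^ τ * ((2 : ℝ) ^ i) ^ (-τ))) s ∂ν ≤
      ENNReal.ofReal ((2 : ℝ) ^ τ * K₀ * r ^ (-β) * q ^ i) := by
    intro i
    rw [lintegral_indicator isClosed_closedBall.measurableSet, setLIntegral_const]
    have h1 : 1 ≤ (2 : ℝ) ^ i / r := by
      rw [le_div_iff₀ hr, one_mul]
      exact hr1.trans (one_le_pow₀ one_le_two)
    refine (mul_le_mul_right (hν t _ h1) _).trans ?_
    rw [← ENNReal.ofReal_mul (by positivity)]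
    apply ENNReal.ofReal_le_ofReal
    apply le_of_eq
    have h2 : q ^ i = ((2 : ℝ) ^ i) ^ (-τ) * ((2 : ℝ) ^ i) ^ β := by
      rw [hq, ← Real.rpow_natCast ((2 : ℝ) ^ (β - τ)), ← Real.rpow_natCast (2 : ℝ) i,
        ← Real.rpow_mul two_pos.le, ← Real.rpow_mul two_pos.le, ← Real.rpow_mul two_pos.le,
        ← Real.rpow_add two_pos]
      congr 1
      ring
    rw [h2, Real.div_rpow (by positivity) hr.le, Real.rpow_neg hr.le]
    field_simp
  refine (ENNReal.tsum_le_tsum hterm).trans ?_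
  rw [← ENNReal.ofReal_tsum_of_nonneg (fun i => by positivity)
    ((summable_geometric_of_lt_one hq0.le hq1).mul_left _), tsum_mul_left,
    tsum_geometric_of_lt_one hq0.le hq1]
  apply ENNReal.ofReal_le_ofReal
  calc (2 : ℝ) ^ τ * K₀ * r ^ (-β) * (1 - q)⁻¹ = ((2 : ℝ) ^ τ * (1 - q)⁻¹) * (K₀ * r ^ (-β)) := by
        ring
    _ ≤ 8 * (K₀ * r ^ (-β)) := mul_le_mul_of_nonneg_right h8 (by positivity)
    _ = 8 * K₀ * r ^ (-β) := by ring

/-- the Fourier transform of a translate -/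
theorem norm_fourier_translate {k : ℕ} (f : E k → ℂ) (b x : E k) :
    ‖𝓕 (fun y : E k => f (y - b)) x‖ = ‖𝓕 f x‖ := by
  rw [Real.fourier_eq', Real.fourier_eq']
  have h1 := integral_sub_right_eq_self
    (fun y : E k => cexp (((-2 * Real.pi * ⟪y + b, x⟫ : ℝ) : ℂ) * I) • f y) b
    (μ := (volume : Measure (E k)))
  simp only [sub_add_cancel] at h1
  rw [h1]
  have h2 : ∀ y : E k, cexp (((-2 * Real.pi * ⟪y + b, x⟫ : ℝ) : ℂ) * I) • f y =
      cexp (((-2 * Real.pi * ⟪b, x⟫ : ℝ) : ℂ) * I) *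
        (cexp (((-2 * Real.pi * ⟪y, x⟫ : ℝ) : ℂ) * I) • f y) := by
    intro y
    rw [smul_eq_mul, smul_eq_mul, ← mul_assoc, ← Complex.exp_add, inner_add_left]
    congr 2
    push_cast
    ring
  simp only [h2]
  rw [integral_const_mul, norm_mul, Complex.norm_exp_ofReal_mul_I, one_mul]

/-- one variable, finite measures -/
theorem one_fin : ∃ C : ℝ, 0 < C ∧ ∀ β K₀ : ℝ, 0 ≤ β → β ≤ 1 → 0 ≤ K₀ →
    ∀ ν : Measure (E 1), IsFiniteMeasure ν → LD β K₀ ν → ∀ h : E 1 → ℂ, Measurable h →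
    (∃ M : ℝ, ∀ x, ‖h x‖ ≤ M) → ∀ (c : ℝ), 0 < c → c ≤ 1 → ∀ (b : E 1) (S : Set (E 1)),
    MeasurableSet S → S ⊆ closedBall b (64 * c) →
      ∫⁻ η in S, ‖Fm h ν η‖ₑ ^ (2 : ℝ) ≤
        ENNReal.ofReal (C * K₀ * c ^ (1 - β)) * ∫⁻ x, ‖h x‖ₑ ^ (2 : ℝ) ∂ν := by
  obtain ⟨C3, hC3, hg3⟩ := gauss_bound (τ := 2) (by norm_num)
  refine ⟨Real.exp 4096 * Real.pi ^ ((1 : ℝ) / 2) * C3 * 8, by positivity, ?_⟩
  intro β K₀ hβ0 hβ1 hK₀ ν hfin hν h hhm hM c hc0 hc1 b S hSm hSb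
  obtain ⟨M, hM⟩ := hM
  set ρ : ℝ := (c ^ 2)⁻¹ with hρ
  have hρ0 : 0 < ρ := by positivity
  set w0 : E 1 → ℝ := fun η => Real.exp 4096 * Real.exp (-(ρ * ‖η‖ ^ 2)) with hw0
  set w : E 1 → ℝ := fun η => w0 (η - b) with hw
  have hw0c : Continuous w0 := by fun_prop
  have hwc : Continuous w := by fun_prop
  have hw0i : Integrable w0 := by
    refine Integrable.const_mul ?_ _
    have h1 := (GaussianFourier.integrable_cexp_neg_mul_sq_norm_add (V := E 1) (b := (ρ : ℂ))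
      (by simpa using hρ0) 0 0).re
    refine h1.congr (ae_of_all _ fun η => ?_)
    have h2 : (-(ρ : ℂ) * ‖η‖ ^ 2 + 0 * ⟪(0 : E 1), η⟫) = ((-(ρ * ‖η‖ ^ 2) : ℝ) : ℂ) := by
      push_cast
      ring
    simp only [h2]
    rw [← Complex.ofReal_exp]
    rfl
  have hwi : Integrable w := hw0i.comp_sub_right b
  have hwS : ∀ η ∈ S, 1 ≤ w η := by
    intro η hη
    have h1 := hSb hη
    rw [mem_closedBall, dist_eq_norm] at h1
    change 1 ≤ Real.exp 4096 * Real.exp (-(ρ * ‖η - b‖ ^ 2))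
    rw [← Real.exp_add]
    apply Real.one_le_exp
    have h2 : ‖η - b‖ ^ 2 ≤ (64 * c) ^ 2 := pow_le_pow_left₀ (norm_nonneg _) h1 2
    have h3 : ρ * ‖η - b‖ ^ 2 ≤ ρ * (64 * c) ^ 2 := mul_le_mul_of_nonneg_left h2 hρ0.le
    have h4 : ρ * (64 * c) ^ 2 = 4096 := by
      rw [hρ, mul_pow, mul_comm, mul_assoc, mul_inv_cancel₀ (by positivity)]
      norm_num
    linarith
  set c1 : ℝ := Real.exp 4096 * (Real.pi / ρ) ^ ((1 : ℝ) / 2) * C3 with hc1d
  have hc10 : 0 ≤ c1 := by positivity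
  set G : ℝ → ℝ := fun u => c1 * (1 + c * u) ^ (-(2 : ℝ)) with hG
  have hGm : Measurable G :=
    (measurable_const.add (measurable_id.const_mul c)).pow_const _ |>.const_mul _
  have hWG : ∀ x : E 1, ‖𝓕 (fun y : E 1 => (w y : ℂ)) x‖ ≤ G ‖x‖ := by
    intro x
    have h0 : ‖𝓕 (fun y : E 1 => (w y : ℂ)) x‖ = ‖𝓕 (fun y : E 1 => (w0 y : ℂ)) x‖ :=
      norm_fourier_translate (fun z : E 1 => (w0 z : ℂ)) b x
    rw [h0]
    have h1 : (fun y : E 1 => (w0 y : ℂ)) = fun y : E 1 => ((Real.exp 4096 : ℝ) : ℂ) *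
        cexp (-(ρ : ℂ) * ‖y‖ ^ 2) := by
      funext y
      simp only [hw0]
      push_cast
      ring_nf
    rw [h1, Pool.Agent.Y86.FC.fourier_real_mul,
      fourier_gaussian_innerProductSpace (by simpa using hρ0) x,
      norm_mul, norm_mul, Complex.norm_real, Real.norm_eq_abs, abs_of_pos (Real.exp_pos 4096),
      finrank_euclideanSpace, Fintype.card_fin]
    have h2 : ‖((Real.pi : ℂ) / (ρ : ℂ)) ^ (((1 : ℕ) : ℂ) / 2)‖ =
        (Real.pi / ρ) ^ ((1 : ℝ) / 2) := by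
      rw [← Complex.ofReal_div, Complex.norm_cpow_eq_rpow_re_of_pos (by positivity)]
      congr 1
      simp
    have h3 : ‖cexp (-(Real.pi : ℂ) ^ 2 * ‖x‖ ^ 2 / (ρ : ℂ))‖ =
        Real.exp (-(Real.pi ^ 2 * (c * ‖x‖) ^ 2)) := by
      have h4 : (-(Real.pi : ℂ) ^ 2 * ‖x‖ ^ 2 / (ρ : ℂ)) =
          ((-(Real.pi ^ 2 * (c * ‖x‖) ^ 2) : ℝ) : ℂ) := by
        rw [hρ, mul_pow]
        push_cast
        rw [div_inv_eq_mul]
        ring
      rw [h4, ← Complex.ofReal_exp, Complex.norm_real, Real.norm_eq_abs,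
        abs_of_pos (Real.exp_pos _)]
    rw [h2, h3]
    have h5 := hg3 (c * ‖x‖) (by positivity)
    calc Real.exp 4096 * ((Real.pi / ρ) ^ ((1 : ℝ) / 2) *
          Real.exp (-(Real.pi ^ 2 * (c * ‖x‖) ^ 2)))
        ≤ Real.exp 4096 * ((Real.pi / ρ) ^ ((1 : ℝ) / 2) *
            (C3 * (1 + c * ‖x‖) ^ (-(2 : ℝ)))) := by
          gcongr
      _ = G ‖x‖ := by
          simp only [hG, hc1d]
          ring
  refine (principle ν h hhm M hM w hwc.measurable hwi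
    (fun η => mul_nonneg (Real.exp_pos _).le (Real.exp_pos _).le) S hwS hSm G hGm hWG
    (ENNReal.ofReal (c1 * (8 * K₀ * c ^ (-β)))) fun t => ?_).trans ?_
  · have h1 : ∀ s : E 1, ENNReal.ofReal (G ‖s - t‖) = ENNReal.ofReal c1 *
        ENNReal.ofReal ((1 + c * ‖s - t‖) ^ (-(2 : ℝ))) := by
      intro s
      rw [← ENNReal.ofReal_mul hc10]
    simp only [h1]
    rw [lintegral_const_mul' _ _ ENNReal.ofReal_ne_top, ENNReal.ofReal_mul hc10]
    exact mul_le_mul_right (growthE hβ0 hβ1 K₀ hK₀ ν hν c hc0 hc1 t) _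
  · refine mul_le_mul_left (ENNReal.ofReal_le_ofReal (le_of_eq ?_)) _
    have h1 : (Real.pi / ρ) ^ ((1 : ℝ) / 2) = Real.pi ^ ((1 : ℝ) / 2) * c := by
      rw [hρ, div_inv_eq_mul, Real.mul_rpow Real.pi_pos.le (by positivity)]
      congr 1
      rw [← Real.sqrt_eq_rpow, Real.sqrt_sq hc0.le]
    have h2 : c ^ (1 - β) = c * c ^ (-β) := by
      rw [sub_eq_add_neg, Real.rpow_add hc0, Real.rpow_one]
    rw [hc1d, h1, h2]
    ring

/-- one variable -/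
theorem one : ∃ C : ℝ, 0 < C ∧ ∀ β K₀ : ℝ, 0 ≤ β → β ≤ 1 → 0 ≤ K₀ →
    ∀ ν : Measure (E 1), LD β K₀ ν → ∀ h : E 1 → ℂ, BB h → ∀ (c : ℝ), 0 < c → c ≤ 1 →
    ∀ (b : E 1) (S : Set (E 1)), MeasurableSet S → S ⊆ closedBall b (64 * c) →
      ∫⁻ η in S, ‖Fm h ν η‖ₑ ^ (2 : ℝ) ≤
        ENNReal.ofReal (C * K₀ * c ^ (1 - β)) * ∫⁻ x, ‖h x‖ₑ ^ (2 : ℝ) ∂ν := by
  obtain ⟨C, hC, H⟩ := one_fin
  refine ⟨C, hC, ?_⟩
  intro β K₀ hβ0 hβ1 hK₀ ν hν h hh c hc0 hc1 b S hSm hSb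
  obtain ⟨R, hR⟩ := hh.2.2
  set B : Set (E 1) := closedBall 0 (max R 1) with hB
  have hfin : IsFiniteMeasure (ν.restrict B) := by
    refine ⟨?_⟩
    rw [Measure.restrict_apply_univ]
    exact lt_of_le_of_lt (hν 0 (max R 1) (le_max_right _ _)) ENNReal.ofReal_lt_top
  have hgr : LD β K₀ (ν.restrict B) := fun t r hr =>
    (Measure.restrict_apply_le B _).trans (hν t r hr)
  have h1 := H β K₀ hβ0 hβ1 hK₀ (ν.restrict B) hfin hgr h hh.1 hh.2.1 c hc0 hc1 b S hSm hSb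
  have h2 : ∀ η, Fm h (ν.restrict B) η = Fm h ν η := by
    intro η
    unfold Fm
    refine setIntegral_eq_integral_of_forall_compl_eq_zero fun x hx => ?_
    have h3 : h x = 0 := hR x fun h4 => hx (closedBall_subset_closedBall (le_max_left _ _) h4)
    rw [h3, zero_mul]
  simp only [h2] at h1
  refine h1.trans (mul_le_mul_right (setLIntegral_le_lintegral _ _) _)

/-- one variable, sets whose parts in the half lines are small -/
theorem two : ∃ C : ℝ, 0 < C ∧ ∀ β K₀ : ℝ, 0 ≤ β → β ≤ 1 → 0 ≤ K₀ →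
    ∀ ν : Measure (E 1), LD β K₀ ν → ∀ h : E 1 → ℂ, BB h → ∀ (c : ℝ), 0 < c → c ≤ 1 →
    ∀ (S : Set (E 1)), MeasurableSet S →
    (∀ b ∈ S, ∀ b' ∈ S, 0 ≤ b 0 * b' 0 → ‖b - b'‖ ≤ 64 * c) →
      ∫⁻ η in S, ‖Fm h ν η‖ₑ ^ (2 : ℝ) ≤
        ENNReal.ofReal (C * K₀ * c ^ (1 - β)) * ∫⁻ x, ‖h x‖ₑ ^ (2 : ℝ) ∂ν := by
  obtain ⟨C, hC, H⟩ := one
  refine ⟨2 * C, by positivity, ?_⟩
  intro β K₀ hβ0 hβ1 hK₀ ν hν h hh c hc0 hc1 S hSm hSb
  have key : ∀ T : Set (E 1), MeasurableSet T → T ⊆ S → (∀ b ∈ T, ∀ b' ∈ T, 0 ≤ b 0 * b' 0) →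
      ∫⁻ η in T, ‖Fm h ν η‖ₑ ^ (2 : ℝ) ≤
        ENNReal.ofReal (C * K₀ * c ^ (1 - β)) * ∫⁻ x, ‖h x‖ₑ ^ (2 : ℝ) ∂ν := by
    intro T hTm hTS hT
    rcases T.eq_empty_or_nonempty with h0 | ⟨b, hb⟩
    · rw [h0, Measure.restrict_empty, lintegral_zero_measure]
      exact zero_le
    · refine H β K₀ hβ0 hβ1 hK₀ ν hν h hh c hc0 hc1 b T hTm fun b' hb' => ?_
      rw [mem_closedBall, dist_eq_norm]
      exact hSb b' (hTS hb') b (hTS hb) (hT b' hb' b hb)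
  have hm0 : MeasurableSet {b : E 1 | 0 ≤ b 0} := by
    refine measurableSet_le measurable_const ?_
    fun_prop
  have hsplit : S = (S ∩ {b : E 1 | 0 ≤ b 0}) ∪ (S \ {b : E 1 | 0 ≤ b 0}) :=
    (inter_union_sdiff S _).symm
  have k1 := key (S ∩ {b : E 1 | 0 ≤ b 0}) (hSm.inter hm0) inter_subset_left
    (fun b hb b' hb' => mul_nonneg hb.2 hb'.2)
  have k2 := key (S \ {b : E 1 | 0 ≤ b 0}) (hSm.diff hm0) sdiff_subset
    (fun b hb b' hb' => by
      have e1 : b 0 < 0 := not_le.1 hb.2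
      have e2 : b' 0 < 0 := not_le.1 hb'.2
      exact (mul_pos_of_neg_of_neg e1 e2).le)
  calc ∫⁻ η in S, ‖Fm h ν η‖ₑ ^ (2 : ℝ)
      = ∫⁻ η in (S ∩ {b : E 1 | 0 ≤ b 0}) ∪ (S \ {b : E 1 | 0 ≤ b 0}), ‖Fm h ν η‖ₑ ^ (2 : ℝ) := by
        rw [← hsplit]
    _ ≤ _ := lintegral_union_le _ _ _
    _ ≤ ENNReal.ofReal (C * K₀ * c ^ (1 - β)) * ∫⁻ x, ‖h x‖ₑ ^ (2 : ℝ) ∂ν +
        ENNReal.ofReal (C * K₀ * c ^ (1 - β)) * ∫⁻ x, ‖h x‖ₑ ^ (2 : ℝ) ∂ν := add_le_add k1 k2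
    _ = ENNReal.ofReal (2 * C * K₀ * c ^ (1 - β)) * ∫⁻ x, ‖h x‖ₑ ^ (2 : ℝ) ∂ν := by
        rw [← add_mul, ← ENNReal.ofReal_add (by positivity) (by positivity)]
        congr 2
        ring

/-- slicing for general sets -/
theorem slice {m k : ℕ} (ν : Measure (E k)) (hν : ∀ (t : E k) (r : ℝ), ν (closedBall t r) < ∞)
    (Sh : Set (E (m + k))) (hShm : MeasurableSet Sh) (K : ℝ)
    (H : ∀ (a : E m) (h : E k → ℂ), BB h →
      ∫⁻ b in {b : E k | es m k (a, b) ∈ Sh}, ‖Fm h ν b‖ₑ ^ (2 : ℝ) ≤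
        ENNReal.ofReal K * ∫⁻ t, ‖h t‖ₑ ^ (2 : ℝ) ∂ν)
    (g : E (m + k) → ℂ) (hg : BB g) :
    ∫⁻ ξ in Sh, ‖Fm g (cyl m ν) ξ‖ₑ ^ (2 : ℝ) ≤
      ENNReal.ofReal K * ∫⁻ x, ‖g x‖ₑ ^ (2 : ℝ) ∂(cyl m ν) := by
  have := sfin hν
  set S2 : Set (E m × E k) := {z | es m k z ∈ Sh} with hS2
  have hS2m : MeasurableSet S2 := es_cont.measurable hShm
  set F : E m × E k → ℝ≥0∞ := S2.indicator (fun z => ‖Fm (GG g z.1) ν z.2‖ₑ ^ (2 : ℝ)) with hF
  -- measurability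
  have hFmm : StronglyMeasurable (fun z : E m × E k => Fm (GG g z.1) ν z.2) := by
    have h1 : StronglyMeasurable (fun p : (E m × E k) × E k => GG g p.1.1 p.2 * ch p.2 p.1.2) := by
      refine StronglyMeasurable.mul ?_ ?_
      · have hf : Measurable (fun p : (E m × E k) × E k => (p.1.1, p.2)) := by fun_prop
        exact (GG_meas hg).comp_measurable hf
      · have hf : Continuous (fun p : (E m × E k) × E k => (p.2, p.1.2)) := by fun_prop
        exact (ch_cont.comp hf).stronglyMeasurable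
    exact h1.integral_prod_right'
  have hFm : Measurable F := by
    exact (hFmm.enorm.pow_const _).indicator hS2m
  -- change of variables
  have h1 : ∫⁻ ξ in Sh, ‖Fm g (cyl m ν) ξ‖ₑ ^ (2 : ℝ) = ∫⁻ z : E m × E k, F z := by
    rw [← lintegral_indicator hShm, ← (es_mp (m := m) (k := k)).lintegral_comp_emb es_me]
    refine lintegral_congr fun z => ?_
    obtain ⟨a, b⟩ := z
    rw [hF]
    by_cases hz : es m k (a, b) ∈ Sh
    · rw [indicator_of_mem hz, indicator_of_mem (show (a, b) ∈ S2 from hz), Fm_split hν hg]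
    · rw [indicator_of_notMem hz, indicator_of_notMem (show (a, b) ∉ S2 from hz)]
  -- the slices
  have h2 : ∀ a : E m, ∫⁻ b : E k, F (a, b) ≤
      ENNReal.ofReal K * ∫⁻ t, ‖GG g a t‖ₑ ^ (2 : ℝ) ∂ν := by
    intro a
    have h3 := H a (GG g a) (GG_BB hg a)
    refine le_trans (le_of_eq ?_) h3
    have hm2 : MeasurableSet {b : E k | es m k (a, b) ∈ Sh} :=
      (measurable_prodMk_left (x := a)) hS2m
    rw [← lintegral_indicator hm2]
    refine lintegral_congr fun b => ?_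
    rw [hF]
    by_cases hz : (a, b) ∈ S2
    · rw [indicator_of_mem hz, indicator_of_mem (show b ∈ {b : E k | es m k (a, b) ∈ Sh} from hz)]
    · rw [indicator_of_notMem hz,
        indicator_of_notMem (show b ∉ {b : E k | es m k (a, b) ∈ Sh} from hz)]
  rw [h1, Measure.volume_eq_prod, lintegral_prod _ hFm.aemeasurable]
  refine (lintegral_mono h2).trans ?_
  rw [lintegral_const_mul' _ _ ENNReal.ofReal_ne_top]
  refine mul_le_mul_right ?_ _
  -- exchange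
  have hGm : Measurable (fun z : E m × E k => ‖GG g z.1 z.2‖ₑ ^ (2 : ℝ)) :=
    (GG_meas hg).enorm.pow_const _
  have h4 : ∫⁻ a : E m, ∫⁻ t, ‖GG g a t‖ₑ ^ (2 : ℝ) ∂ν =
      ∫⁻ t, (∫⁻ a : E m, ‖GG g a t‖ₑ ^ (2 : ℝ)) ∂ν :=
    lintegral_lintegral_swap hGm.aemeasurable
  rw [h4]
  have h5 : ∫⁻ x, ‖g x‖ₑ ^ (2 : ℝ) ∂(cyl m ν) =
      ∫⁻ t, (∫⁻ a : E m, ‖g (es m k (a, t))‖ₑ ^ (2 : ℝ)) ∂ν := by
    rw [cyl_eq, es_me.lintegral_map, lintegral_prod_symm']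
    exact (hg.1.comp es_cont.measurable).enorm.pow_const _
  rw [h5]
  refine le_of_eq (lintegral_congr fun t => ?_)
  exact slice_planch hg t

theorem pr_es {m k : ℕ} (a : E m) (b : E k) : pr m (es m k (a, b)) = b := by
  ext i
  have h1 : pr m (es m k (a, b)) i = es m k (a, b) (Fin.natAdd m i) := ee_snd _ i
  rw [h1, es_fun]
  exact es_snd a b i

theorem pr_cont (m k : ℕ) : Continuous (pr m (k := k)) :=
  continuous_snd.comp (ee m k).continuous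

theorem norm_E1 (b : E 1) : ‖b‖ = |b 0| := by
  rw [EuclideanSpace.norm_eq, Fin.sum_univ_one, Real.sqrt_sq_eq_abs, Real.norm_eq_abs, abs_abs]

/-- points of the same half line -/
theorem same {b b' : E 1} (h : 0 ≤ b 0 * b' 0) : ‖b - b'‖ = |‖b‖ - ‖b'‖| := by
  rw [norm_E1, norm_E1, norm_E1]
  have e : (b - b') 0 = b 0 - b' 0 := rfl
  rw [e]
  rcases le_total 0 (b 0) with h1 | h1 <;> rcases le_total 0 (b' 0) with h2 | h2
  · rw [abs_of_nonneg h1, abs_of_nonneg h2]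
  · have h3 : b 0 * b' 0 = 0 := le_antisymm (mul_nonpos_of_nonneg_of_nonpos h1 h2) h
    rcases mul_eq_zero.1 h3 with h4 | h4
    · rw [h4, abs_zero, zero_sub, zero_sub, abs_neg, abs_neg, abs_abs]
    · rw [h4, abs_zero, sub_zero, sub_zero, abs_abs]
  · have h3 : b 0 * b' 0 = 0 := le_antisymm (mul_nonpos_of_nonpos_of_nonneg h1 h2) h
    rcases mul_eq_zero.1 h3 with h4 | h4
    · rw [h4, abs_zero, zero_sub, zero_sub, abs_neg, abs_neg, abs_abs]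
    · rw [h4, abs_zero, sub_zero, sub_zero, abs_abs]
  · rw [abs_of_nonpos h1, abs_of_nonpos h2]
    rw [show -(b 0) - -(b' 0) = -(b 0 - b' 0) by ring, abs_neg]

end Pool.Agent.Y884.FD
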