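import Mathlib
import Pool.Agent.Y884.FD.GaA

set_option autoImplicit false

/-!
Job Y248-FD GA of helper248: gains for measures on cylinders over the line.
-/

namespace Pool.Agent.Y884.FD

open MeasureTheory Set Metric Complex Filter
open scoped ENNReal RealInnerProductSpace Topology FourierTransform
open Pool.Agent.H789R2.FR (E sg T)
open Pool.Agent.Y248.FB
open Pool.Agent.Y248.FC
open Pool.Agent.Y248.FD
open Pool.Agent.Y363.FC

/-- differences of norms -/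
theorem diffs {x y s ρ q : ℝ} (hρ : 0 < ρ) (hx : |x ^ 2 - s| ≤ 1 / ρ) (hy : |y ^ 2 - s| ≤ 1 / ρ)
    (hq : 0 < q) (hxq : q ≤ x) (hyq : q ≤ y) : |x - y| ≤ 1 / (ρ * q) := by
  have h1 : |x ^ 2 - y ^ 2| ≤ 2 / ρ := by
    have e : x ^ 2 - y ^ 2 = (x ^ 2 - s) - (y ^ 2 - s) := by ring
    rw [e]
    calc |(x ^ 2 - s) - (y ^ 2 - s)| ≤ |x ^ 2 - s| + |y ^ 2 - s| := abs_sub _ _
      _ ≤ 1 / ρ + 1 / ρ := add_le_add hx hy
      _ = 2 / ρ := by ring
  have h2 : |x - y| * (2 * q) ≤ 2 / ρ := by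
    calc |x - y| * (2 * q) ≤ |x - y| * |x + y| := by
          refine mul_le_mul_of_nonneg_left ?_ (abs_nonneg _)
          rw [abs_of_nonneg (by linarith)]
          linarith
      _ = |x ^ 2 - y ^ 2| := by rw [← abs_mul]; congr 1; ring
      _ ≤ 2 / ρ := h1
  rw [le_div_iff₀ (by positivity)]
  rw [le_div_iff₀ hρ] at h2
  nlinarith

theorem diffr {x y u : ℝ} (hx0 : 0 ≤ x) (hy0 : 0 ≤ y) (hx : x ≤ u) (hy : y ≤ u) :
    |x - y| ≤ u := by
  rw [abs_le]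
  constructor <;> linarith

theorem t_ga (m : ℕ) : S_GA m := by
  obtain ⟨C, hC, H⟩ := two
  refine ⟨C, hC, ?_⟩
  intro β K₀ hβ0 hβ1 hK₀ ν hν ρ hρ g hg
  have hνf : ∀ (t : E 1) (r : ℝ), ν (closedBall t r) < ∞ := fun t r =>
    lt_of_le_of_lt (measure_mono (closedBall_subset_closedBall (le_max_left r 1)))
      ((hν t _ (le_max_right r 1)).trans_lt ENNReal.ofReal_lt_top)
  have hρ0 : 0 < ρ := by linarith
  have hprn : Measurable fun ξ : E (m + 1) => ‖pr m ξ‖ := (pr_cont m 1).norm.measurable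
  have hsh : MeasurableSet {ξ : E (m + 1) | |‖ξ‖ ^ 2 - 1| ≤ 1 / ρ} := by
    refine measurableSet_le ?_ measurable_const
    fun_prop
  have hes : ∀ a : E m, Measurable fun b : E 1 => es m 1 (a, b) := fun a =>
    es_cont.measurable.comp measurable_prodMk_left
  refine ⟨fun l hl0 hl1 => ?_, ?_⟩
  · set c : ℝ := min (1 / (ρ * l)) l with hc
    have hc0 : 0 < c := lt_min (by positivity) hl0
    have hc1 : c ≤ 1 := (min_le_right _ _).trans hl1
    have hShm : MeasurableSet {ξ : E (m + 1) | |‖ξ‖ ^ 2 - 1| ≤ 1 / ρ ∧ ‖pr m ξ‖ ≤ 2 * l ∧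
        (l / 2 ≤ ‖pr m ξ‖ ∨ ρ * l ^ 2 ≤ 16)} :=
      hsh.inter ((measurableSet_le hprn measurable_const).inter
        ((measurableSet_le measurable_const hprn).union (MeasurableSet.const _)))
    refine slice ν hνf _ hShm (C * K₀ * c ^ (1 - β)) (fun a h hh => ?_) g hg
    refine H β K₀ hβ0 hβ1 hK₀ ν hν h hh c hc0 hc1 _ (hes a hShm) ?_
    intro b hb b' hb' hbb
    obtain ⟨h1, h2, h3⟩ := hb
    obtain ⟨h1', h2', h3'⟩ := hb'
    rw [pr_es] at h2 h3 h2' h3'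
    rw [es_norm] at h1 h1'
    rw [show ‖a‖ ^ 2 + ‖b‖ ^ 2 - 1 = ‖b‖ ^ 2 - (1 - ‖a‖ ^ 2) by ring] at h1
    rw [show ‖a‖ ^ 2 + ‖b'‖ ^ 2 - 1 = ‖b'‖ ^ 2 - (1 - ‖a‖ ^ 2) by ring] at h1'
    rw [same hbb]
    have hd := diffr (norm_nonneg b) (norm_nonneg b') h2 h2'
    rcases le_or_gt (ρ * l ^ 2) 16 with h4 | h4
    · have h5 : l / 16 ≤ c := by
        refine le_min ?_ (by linarith)
        rw [div_le_div_iff₀ (by norm_num) (by positivity)]
        nlinarith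
      linarith
    · have h6 : l / 2 ≤ ‖b‖ := h3.resolve_right (not_le.2 h4)
      have h7 : l / 2 ≤ ‖b'‖ := h3'.resolve_right (not_le.2 h4)
      have h8 := diffs hρ0 h1 h1' (by positivity) h6 h7
      have h9 : 1 / (ρ * (l / 2)) = 2 * (1 / (ρ * l)) := by
        field_simp
      rw [h9] at h8
      have h10 : |‖b‖ - ‖b'‖| ≤ 2 * c := by
        rw [hc, mul_min_of_nonneg _ _ (by norm_num : (0 : ℝ) ≤ 2)]
        exact le_min h8 hd
      linarith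
  · set c : ℝ := 1 / ρ with hc
    have hc0 : 0 < c := by positivity
    have hc1 : c ≤ 1 := by rw [hc, div_le_one hρ0]; exact hρ
    have hShm : MeasurableSet {ξ : E (m + 1) | |‖ξ‖ ^ 2 - 1| ≤ c ∧ 1 / 16 ≤ ‖pr m ξ‖} :=
      hsh.inter (measurableSet_le measurable_const hprn)
    have hpow : c ^ (1 - β) = ρ ^ (-(1 - β)) := by
      rw [hc, one_div, Real.inv_rpow hρ0.le, Real.rpow_neg hρ0.le]
    rw [← hpow]
    refine slice ν hνf _ hShm (C * K₀ * c ^ (1 - β)) (fun a h hh => ?_) g hg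
    refine H β K₀ hβ0 hβ1 hK₀ ν hν h hh c hc0 hc1 _ (hes a hShm) ?_
    intro b hb b' hb' hbb
    obtain ⟨h1, h2⟩ := hb
    obtain ⟨h1', h2'⟩ := hb'
    rw [pr_es] at h2 h2'
    rw [es_norm] at h1 h1'
    rw [show ‖a‖ ^ 2 + ‖b‖ ^ 2 - 1 = ‖b‖ ^ 2 - (1 - ‖a‖ ^ 2) by ring] at h1
    rw [show ‖a‖ ^ 2 + ‖b'‖ ^ 2 - 1 = ‖b'‖ ^ 2 - (1 - ‖a‖ ^ 2) by ring] at h1'
    rw [same hbb]
    have h8 := diffs hρ0 h1 h1' (by norm_num) h2 h2'
    have h9 : 1 / (ρ * (1 / 16)) = 16 * c := by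
      rw [hc]
      field_simp
    rw [h9] at h8
    linarith

end Pool.Agent.Y884.FD
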